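import Mathlib

namespace Pool.Agent.Results.MP_361790_al.Counterexample

/-- The commutator `[R_a, R_b]` of right multiplications. -/
def comR {A : Type*} [AddCommGroup A] (mul : A → A → A) (a b x : A) : A :=
  mul (mul x a) b - mul (mul x b) a

/-- CD algebra: anticommutative, and every `[R_a, R_b]` is a derivation. -/
def IsCD {A : Type*} [AddCommGroup A] (mul : A → A → A) : Prop :=
  (∀ x, mul x x = 0) ∧
    ∀ a b x y, comR mul a b (mul x y) = mul (comR mul a b x) y + mul x (comR mul a b y)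

/-- The product `(a, m)(b, n) = (ab, a • n - b • m)` on `A ⊕ M`. -/
def extMul {K A M : Type*} [Field K] [AddCommGroup A] [Module K A] [AddCommGroup M] [Module K M]
    (mul : A →ₗ[K] A →ₗ[K] A) (act : A →ₗ[K] M →ₗ[K] M) (p q : A × M) : A × M :=
  (mul p.1 q.1, act p.1 q.2 - act q.1 p.2)

/-- `e₀ e₁ = e₃`, `e₃ e₂ = e₄` -/
def mul5 (K : Type*) [Field K] : (Fin 5 → K) →ₗ[K] (Fin 5 → K) →ₗ[K] (Fin 5 → K) :=
  LinearMap.mk₂ K (fun x y => ![0, 0, 0, x 0 * y 1 - x 1 * y 0, x 3 * y 2 - x 2 * y 3])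
    (fun x y u => by ext i; fin_cases i <;> simp <;> ring)
    (fun c x u => by ext i; fin_cases i <;> simp <;> ring)
    (fun x u v => by ext i; fin_cases i <;> simp <;> ring)
    (fun c x u => by ext i; fin_cases i <;> simp <;> ring)

lemma mul5_apply {K : Type*} [Field K] (x y : Fin 5 → K) :
    mul5 K x y = ![0, 0, 0, x 0 * y 1 - x 1 * y 0, x 3 * y 2 - x 2 * y 3] := rfl

theorem result (K : Type*) [Field K] (h2 : (2 : K) ≠ 0) :
    ∃ mul : (Fin 5 → K) →ₗ[K] (Fin 5 → K) →ₗ[K] (Fin 5 → K), IsCD (fun x y => mul x y) ∧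
      ∃ a : Fin 5 → K, a ≠ 0 ∧ ∀ (M : Type*) [AddCommGroup M] [Module K M]
        (act : (Fin 5 → K) →ₗ[K] M →ₗ[K] M), IsCD (extMul mul act) → ∀ m, act a m = 0 := by
  refine ⟨mul5 K, ⟨fun x => ?_, fun a b x y => ?_⟩, Pi.single 4 1, by simp, ?_⟩
  · ext i; fin_cases i <;> simp [mul5_apply] <;> ring
  · ext i; fin_cases i <;> simp [comR, mul5_apply]
  · intro M _ _ act h m
    set x : Fin 5 → K := Pi.single 0 1 with hx
    set y : Fin 5 → K := Pi.single 1 1 with hy
    set z : Fin 5 → K := Pi.single 2 1 with hz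
    set u : Fin 5 → K := Pi.single 3 1 with hu
    set w : Fin 5 → K := Pi.single 4 1 with hw
    have xy : mul5 K x y = u := by ext i; fin_cases i <;> simp [mul5_apply, hx, hy, hu]
    have yx : mul5 K y x = -u := by ext i; fin_cases i <;> simp [mul5_apply, hx, hy, hu]
    have xz : mul5 K x z = 0 := by ext i; fin_cases i <;> simp [mul5_apply, hx, hz]
    have zx : mul5 K z x = 0 := by ext i; fin_cases i <;> simp [mul5_apply, hx, hz]
    have yz : mul5 K y z = 0 := by ext i; fin_cases i <;> simp [mul5_apply, hy, hz]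
    have zy : mul5 K z y = 0 := by ext i; fin_cases i <;> simp [mul5_apply, hy, hz]
    have uz : mul5 K u z = w := by ext i; fin_cases i <;> simp [mul5_apply, hu, hz, hw]
    have h1 := congrArg Prod.snd (h.2 (y, 0) (z, 0) (x, 0) (0, m))
    have h3 := congrArg Prod.snd (h.2 (x, 0) (z, 0) (y, 0) (0, m))
    have h4 := congrArg Prod.snd (h.2 (x, 0) (y, 0) (z, 0) (0, m))
    simp only [comR, extMul, map_zero, LinearMap.zero_apply, sub_zero, zero_sub, map_neg, neg_neg,
      Prod.snd_sub, Prod.snd_add, Prod.fst_sub, map_sub, xy, yx, xz, zx, yz, zy, uz,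
      LinearMap.neg_apply, sub_self, LinearMap.sub_apply, Prod.fst_zero] at h1 h3 h4
    have key : (2 : K) • act w m = 0 := by
      linear_combination (norm := module) h3 - h1 - h4
    exact (smul_eq_zero.1 key).resolve_left h2

end Pool.Agent.Results.MP_361790_al.Counterexample
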